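import Pool.Agent.H59.GC.B1
import Pool.Agent.H59.GC.C4

/-!
# The girth conjecture as a statement on edge colourings and Ramsey numbers

For `0 < α < 1` (for the girth conjecture: `α = 1 / m`, `m ≥ 2`) the following are equivalent.

* For all large `n` some graph on `n` vertices of girth greater than `2 m` has at least
  `c n ^ (1 + α)` edges.
* The edges of every locally finite graph, finite or infinite, can be coloured with `0, 1, 2, …`
  without monochromatic cycles of length at most `2 m` such that an edge whose ends have the larger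
  degree `M` has a colour smaller than `C M ^ (1 - α)` and meets at each end at most `C M ^ α` edges
  of its colour.
* Graphs of maximum degree at most `Δ` need at most `C Δ ^ (1 - α)` colours.
* `K_n` needs at most `C n ^ (1 - α)` colours.
* The `k`-colour Ramsey number of the set of all cycles of length at most `2 m` is at least
  `c k ^ (1 / (1 - α))`; the exponent is `m / (m - 1)` for `α = 1 / m`.
* For one sequence of graphs with `n` vertices and at least `δ n ^ 2` edges, `C n ^ (1 - α)` colours
  are sufficient.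

Colourings of `K_n` need at least `(n - 1) / (24 n ^ (1 / m))` colours, so the girth conjecture
says that the number of colours has this order of magnitude.

Proof: The library reduces the first statement to the existence of `d`-regular graphs of girth
greater than `2 m` on `O(d ^ (1 / α))` vertices (`RegularForm`). Map the vertices of a graph `R` of
maximum degree `Δ` at random to such a graph `H` with `d ≈ Δ ^ α` and `4 Δ ≤ |H| ≤ C Δ`, and keep the
edges on which the map is a locally injective homomorphism; the kept graph has girth greater than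
`2 m`. After `O(Δ ^ (1 - α))` independent rounds all degrees of the graph of the edges which were
never kept are at most `Δ / 2`, by the local lemma: the probability of a larger degree at a vertex
is bounded by an exponential moment, round by round. The numbers of colours for `Δ, Δ / 2, Δ / 4, …`
form a geometric series, so no logarithm is lost. Palettes for the scales of the degrees give the
local form, and compactness gives it for infinite graphs. For `m = 2, 3, 5`, the known cases of the
girth conjecture, the colourings exist unconditionally (generalized polygons; the affine part of the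
hexagon is in `Pool/Agent/H59/GC/C1.lean`, `C2.lean`).
-/

set_option autoImplicit false

namespace Pool.Agent.Results.MP_97687e_co.ColourForm

/-- For all large `n` there is a graph on `n` vertices without cycles of length at most `2 m` with
at least `c n ^ (1 + α)` edges. -/
def Dense (m : ℕ) (α : ℝ) : Prop :=
  ∃ c : ℝ, 0 < c ∧ ∃ N : ℕ, ∀ n ≥ N, ∃ G : SimpleGraph (Fin n),
    ((2 * m : ℕ) : ℕ∞) < G.egirth ∧ c * (n : ℝ) ^ (1 + α) ≤ (G.edgeSet.ncard : ℝ)

/-- The edges of every locally finite graph, finite or infinite, can be coloured with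
`0, 1, 2, …` without monochromatic cycles of length at most `2 m` such that the colour of an edge
is smaller than `C M ^ (1 - α)` and it meets at each of its ends at most `C M ^ α` edges of its
colour, where `M` is the larger one of the degrees of its ends. -/
def LocalForm (m : ℕ) (α : ℝ) : Prop :=
  ∃ C : ℝ, ∀ (V : Type) (G : SimpleGraph V), (∀ v, (G.neighborSet v).Finite) →
    ∃ c : G.EdgeLabeling ℕ, (∀ i, ((2 * m : ℕ) : ℕ∞) < (c.labelGraph i).egirth) ∧
      ∀ u v (h : G.Adj u v), ∀ M : ℕ,
        M = max (G.neighborSet u).ncard (G.neighborSet v).ncard →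
        (c.get u v h : ℝ) < C * (M : ℝ) ^ (1 - α) ∧
        (((c.labelGraph (c.get u v h)).neighborSet v).ncard : ℝ) ≤ C * (M : ℝ) ^ α

/-- The edges of every graph, finite or infinite, of maximum degree at most `Δ` can be coloured
with at most `C Δ ^ (1 - α)` colours without monochromatic cycles of length at most `2 m` and
such that each colour has maximum degree at most `C Δ ^ α`. -/
def DegreeForm (m : ℕ) (α : ℝ) : Prop :=
  ∃ C : ℝ, ∀ Δ : ℕ, 1 ≤ Δ → ∀ (V : Type) (G : SimpleGraph V),
    (∀ v, (G.neighborSet v).encard ≤ Δ) → ∃ (k : ℕ) (c : G.EdgeLabeling (Fin k)),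
      (k : ℝ) ≤ C * (Δ : ℝ) ^ (1 - α) ∧ ∀ i, ((2 * m : ℕ) : ℕ∞) < (c.labelGraph i).egirth ∧
        ∀ v, (((c.labelGraph i).neighborSet v).ncard : ℝ) ≤ C * (Δ : ℝ) ^ α

/-- The edges of every complete graph `K_n` can be coloured with at most `C n ^ (1 - α)` colours
without monochromatic cycles of length at most `2 m`. -/
def CompleteForm (m : ℕ) (α : ℝ) : Prop :=
  ∃ C : ℝ, ∀ n : ℕ, 1 ≤ n → ∃ (k : ℕ) (c : SimpleGraph.TopEdgeLabeling (Fin n) (Fin k)),
    (k : ℝ) ≤ C * (n : ℝ) ^ (1 - α) ∧ ∀ i, ((2 * m : ℕ) : ℕ∞) < (c.labelGraph i).egirth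

/-- The `k`-colour Ramsey numbers of the set of the cycles of length at most `2 m` are larger than
`c k ^ (1 / (1 - α))`: for `n ≤ c k ^ (1 / (1 - α))` the edges of `K_n` can be coloured with `k`
colours without monochromatic cycles of length at most `2 m`. -/
def RamseyForm (m : ℕ) (α : ℝ) : Prop :=
  ∃ c : ℝ, 0 < c ∧ ∀ k : ℕ, 1 ≤ k → ∀ n : ℕ, 1 ≤ n → (n : ℝ) ≤ c * (k : ℝ) ^ (1 / (1 - α)) →
    ∃ f : SimpleGraph.TopEdgeLabeling (Fin n) (Fin k),
      ∀ i, ((2 * m : ℕ) : ℕ∞) < (f.labelGraph i).egirth

/-- For all large `n` the edges of some graph on `n` vertices with at least `δ n ^ 2` edges can be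
coloured with at most `C n ^ (1 - α)` colours without monochromatic cycles of length at most
`2 m`. -/
def HostForm (m : ℕ) (α : ℝ) : Prop :=
  ∃ C δ : ℝ, 0 < δ ∧ ∃ N : ℕ, ∀ n ≥ N, ∃ G : SimpleGraph (Fin n),
    δ * (n : ℝ) ^ 2 ≤ (G.edgeSet.ncard : ℝ) ∧ ∃ (k : ℕ) (c : G.EdgeLabeling (Fin k)),
      (k : ℝ) ≤ C * (n : ℝ) ^ (1 - α) ∧ ∀ i, ((2 * m : ℕ) : ℕ∞) < (c.labelGraph i).egirth

/-- **The girth conjecture as a statement on edge colourings and Ramsey numbers.**
(1) The equivalences, for every exponent. (2) The case of the girth conjecture for the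
parameter `m`. (3) The lower bound for the number of colours. (4) Unconditional colourings. -/
theorem result :
    (∀ (m : ℕ) (α : ℝ), 0 < α → α < 1 →
      [Dense m α, LocalForm m α, DegreeForm m α, CompleteForm m α, RamseyForm m α,
        HostForm m α].TFAE) ∧
    (∀ m : ℕ, 2 ≤ m →
      [Dense m (1 / (m : ℝ)), LocalForm m (1 / (m : ℝ)), DegreeForm m (1 / (m : ℝ)),
        CompleteForm m (1 / (m : ℝ)),
        ∃ c : ℝ, 0 < c ∧ ∀ k : ℕ, 1 ≤ k → ∀ n : ℕ, 1 ≤ n →
          (n : ℝ) ≤ c * (k : ℝ) ^ ((m : ℝ) / ((m : ℝ) - 1)) →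
            ∃ f : SimpleGraph.TopEdgeLabeling (Fin n) (Fin k),
              ∀ i, ((2 * m : ℕ) : ℕ∞) < (f.labelGraph i).egirth,
        HostForm m (1 / (m : ℝ))].TFAE) ∧
    (∀ m n k : ℕ, 1 ≤ m → 1 ≤ n → ∀ c : SimpleGraph.TopEdgeLabeling (Fin n) (Fin k),
      (∀ i, ((2 * m : ℕ) : ℕ∞) < (c.labelGraph i).egirth) →
        (n : ℝ) - 1 ≤ 24 * k * (n : ℝ) ^ (1 / (m : ℝ))) ∧
    (∀ m : ℕ, 1 ≤ m → LocalForm m (3 / ((4 * m + 2 - m / 4 : ℕ) : ℝ))) ∧
    LocalForm 2 (1 / 2) ∧ LocalForm 3 (1 / 3) ∧ LocalForm 4 (1 / 5) ∧ LocalForm 5 (1 / 5) := by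
  refine ⟨fun m α h1 h2 => Pool.Agent.H59.GC.tfae6 m α h1 h2, ?_, ?_, ?_, ?_, ?_, ?_, ?_⟩
  · intro m hm
    have hm2 : (2 : ℝ) ≤ m := by exact_mod_cast hm
    have h := Pool.Agent.H59.GC.tfae6 m (1 / (m : ℝ)) (by positivity) (by
      rw [div_lt_one (by linarith)]; linarith)
    have e : 1 / (1 - 1 / (m : ℝ)) = (m : ℝ) / ((m : ℝ) - 1) := by
      have h0 : (m : ℝ) ≠ 0 := by positivity
      have h1 : (m : ℝ) - 1 ≠ 0 := by linarith
      field_simp
    unfold Pool.Agent.H59.GC.RamseyForm at h
    rw [e] at h
    exact h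
  · intro m n k hm hn c hc
    exact Pool.Agent.H59.GC.colours_ge hm n k hn c hc
  · intro m hm
    refine Pool.Agent.H59.GC.local_of_dense ?_ ?_ (Pool.Agent.H59.GC.dense_tower hm)
    · have : 0 < 4 * m + 2 - m / 4 := by omega
      have : (0 : ℝ) < ((4 * m + 2 - m / 4 : ℕ) : ℝ) := by exact_mod_cast this
      positivity
    · have : 4 ≤ 4 * m + 2 - m / 4 := by omega
      have : (4 : ℝ) ≤ ((4 * m + 2 - m / 4 : ℕ) : ℝ) := by exact_mod_cast this
      rw [div_lt_one (by linarith)]
      linarith
  · exact Pool.Agent.H59.GC.local_of_dense (by norm_num) (by norm_num)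
      Pool.Agent.H59.GC.dense_two
  · exact Pool.Agent.H59.GC.local_of_dense (by norm_num) (by norm_num)
      Pool.Agent.H59.GC.dense_three
  · exact Pool.Agent.H59.GC.local_four
  · exact Pool.Agent.H59.GC.local_five

end Pool.Agent.Results.MP_97687e_co.ColourForm
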