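import Mathlib
import Pool.Agent.H56.GL.Xor

set_option autoImplicit false

/-!
# The girth conjecture and generators of locality two

A family of events, each of them determined by two of `n` independent sources with `q` values, is
`k`-wise independent only if a fixed proportion of its members has pairs of sources which form a
graph of girth `> k`. So the girth conjecture for `m` says that there are
`c n ^ (1 + 1 / m)` events of this kind which are `2 m`-wise independent.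

Proof. Subtract from the indicator functions their expectations, divide by the standard deviations
and take the kernel operators `L²(w) → L²(u)`: these are vectors of the unit sphere of a space of
`q × q` matrices. Colour this sphere by finitely many colours such that for matrices `M₁, …, M_l` of
one colour, `l ≤ k`, `|tr (M₁ M₂ᵀ M₁ M₂ᵀ ⋯)|` is bounded below (for `l` even; for `l` odd cycles are
excluded by a bipartition of the sources). The trace of the product of the operators along a cycle is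
the expectation of the product of the functions, which is zero by independence.
-/

namespace Pool.Agent.Results.MP_97687e_co.LocalityTwoGenerators

open Finset

/-- `n` independent sources with `q` values: `μ v` is the distribution of the source `v`. -/
def IsSource {n q : ℕ} (μ : Fin n → Fin q → ℝ) : Prop :=
  ∀ v, (∀ a, 0 ≤ μ v a) ∧ ∑ a, μ v a = 1

/-- The probability of `B` for independent sources with the distributions `μ v`. -/
noncomputable def prob {n q : ℕ} (μ : Fin n → Fin q → ℝ) (B : Set (Fin n → Fin q)) : ℝ :=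
  ∑ x, B.indicator (fun x => ∏ v, μ v (x v)) x

/-- `B` is determined by the values of the two different sources `u` and `w`. -/
def Determined {n q : ℕ} (B : Set (Fin n → Fin q)) (u w : Fin n) : Prop :=
  u ≠ w ∧ ∀ x y : Fin n → Fin q, x u = y u → x w = y w → (x ∈ B ↔ y ∈ B)

/-- The events `B e` are `k`-wise independent up to an error `ε`; `ε = 0` is exact independence. -/
def Indep {n q N : ℕ} (k : ℕ) (ε : ℝ) (μ : Fin n → Fin q → ℝ)
    (B : Fin N → Set (Fin n → Fin q)) : Prop :=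
  ∀ F : Finset (Fin N), F.card ≤ k →
    |prob μ (⋂ e ∈ F, B e) - ∏ e ∈ F, prob μ (B e)| ≤ ε

lemma fromEdgeSet_eq {n N : ℕ} (s t : Fin N → Fin n) (T : Finset (Fin N)) :
    SimpleGraph.fromEdgeSet ((fun e => s(s e, t e)) '' (T : Set (Fin N))) =
      H56.GL.pairGraph s t T := by
  ext u w
  rw [SimpleGraph.fromEdgeSet_adj]
  simp only [H56.GL.pairGraph, Set.mem_image, Finset.mem_coe, Sym2.eq_iff]
  exact and_comm

/-- the selection theorem for events over `Fin n` -/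
theorem structure_thm (q k : ℕ) (hk : 2 ≤ k) : ∃ C : ℕ, ∀ v : ℝ, 0 < v → ∃ ε : ℝ, 0 < ε ∧
    ∀ (n N : ℕ) (μ : Fin n → Fin q → ℝ), IsSource μ → ∀ (s t : Fin N → Fin n)
      (B : Fin N → Set (Fin n → Fin q)), (∀ e, Determined (B e) (s e) (t e)) →
      ((Indep k 0 μ B ∧ ∀ e, 0 < prob μ (B e) ∧ prob μ (B e) < 1) ∨
        (Indep k ε μ B ∧ ∀ e, v ≤ prob μ (B e) ∧ prob μ (B e) ≤ 1 - v)) →
      ∃ T : Finset (Fin N), N ≤ C * T.card ∧
        Set.InjOn (fun e => s(s e, t e)) (T : Set (Fin N)) ∧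
        ((k : ℕ) : ℕ∞) <
          (SimpleGraph.fromEdgeSet ((fun e => s(s e, t e)) '' (T : Set (Fin N)))).egirth := by
  obtain ⟨C, hC⟩ := H56.GL.events (Fin q) k
  refine ⟨C, fun v hv => ?_⟩
  obtain ⟨δ, hδ, h⟩ := hC v hv
  refine ⟨δ, hδ, fun n N μ hμ s t B hB hind => ?_⟩
  have hpos : ∀ e, 0 < prob μ (B e) ∧ prob μ (B e) < 1 := by
    rcases hind with ⟨-, h1⟩ | ⟨-, h1⟩
    · exact h1
    · intro e
      have h2 := h1 e
      exact ⟨by linarith [h2.1], by linarith [h2.2]⟩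
  obtain ⟨T, hT, hcyc⟩ := h (Fin n) (Fin N) μ hμ s t (fun e => (hB e).1) B
    (fun e => (hB e).2) hpos (by
      rcases hind with ⟨h1, -⟩ | ⟨h1, h2⟩
      · left
        intro F hF
        have h3 := h1 F hF
        exact sub_eq_zero.1 (abs_eq_zero.1 (le_antisymm h3 (abs_nonneg _)))
      · exact Or.inr ⟨h2, h1⟩)
  rw [Fintype.card_fin] at hT
  refine ⟨T, hT, ?_, ?_⟩
  · intro e he e' he' hee
    apply hcyc.inj hk (fun e => (hB e).1) he he'
    exact Sym2.eq_iff.1 hee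
  · rw [fromEdgeSet_eq]
    exact hcyc.girth

lemma ncard_edges {n N : ℕ} (s t : Fin N → Fin n) (hst : ∀ e, s e ≠ t e) (T : Finset (Fin N))
    (hT : Set.InjOn (fun e => s(s e, t e)) (T : Set (Fin N))) :
    (SimpleGraph.fromEdgeSet ((fun e => s(s e, t e)) '' (T : Set (Fin N)))).edgeSet.ncard =
      T.card := by
  rw [SimpleGraph.edgeSet_fromEdgeSet, sdiff_eq_left.2, hT.ncard_image,
    Set.ncard_coe_finset]
  rw [Set.disjoint_left]
  rintro a ⟨e, -, rfl⟩ h
  exact hst e (by simpa using h)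

lemma mono_indep {n q N k : ℕ} {ε ε' : ℝ} {μ : Fin n → Fin q → ℝ}
    {B : Fin N → Set (Fin n → Fin q)} (h : Indep k ε μ B) (hε : ε ≤ ε') : Indep k ε' μ B :=
  fun F hF => (h F hF).trans hε

lemma prob_xor {n : ℕ} {u w : Fin n} (h : u ≠ w) :
    prob (fun _ _ => 1 / 2) {x : Fin n → Fin 2 | x u ≠ x w} = 1 / 2 := by
  have h1 := H56.GL.xor_indep (k := 1) (s := fun _ : Fin 1 => u) (t := fun _ => w)
    (fun _ => h) {0} (by simp) (lt_of_lt_of_le (by norm_num) SimpleGraph.three_le_egirth)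
    (by simp)
  have h2 : (⋂ e ∈ ({0} : Finset (Fin 1)), H56.GL.Differ u w) = H56.GL.Differ u w := by simp
  rw [h2, Finset.card_singleton, pow_one] at h1
  exact h1

/-- comparisons of fair bits along the edges of a graph -/
lemma graph_to_xor {n k : ℕ} (G : SimpleGraph (Fin n)) (hG : ((k : ℕ) : ℕ∞) < G.egirth) :
    ∃ s t : Fin G.edgeSet.ncard → Fin n, (∀ e, s e ≠ t e) ∧
      Indep k 0 (fun _ _ => 1 / 2) (fun e => {x : Fin n → Fin 2 | x (s e) ≠ x (t e)}) := by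
  classical
  have hfin : G.edgeSet.Finite := Set.toFinite _
  let φ : G.edgeSet ≃ Fin G.edgeSet.ncard := Finite.equivFinOfCardEq (by rfl)
  have hex : ∀ e : Fin G.edgeSet.ncard, ∃ p : Fin n × Fin n, s(p.1, p.2) = (φ.symm e : Sym2 (Fin n)) := by
    intro e
    induction' h : (φ.symm e : Sym2 (Fin n)) with u w
    exact ⟨(u, w), rfl⟩
  choose p hp using hex
  have hadj : ∀ e, G.Adj (p e).1 (p e).2 := fun e => by
    rw [← SimpleGraph.mem_edgeSet, hp]
    exact (φ.symm e).2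
  have hinj : Function.Injective (fun e => s((p e).1, (p e).2)) := by
    intro e e' h
    simp only [hp] at h
    exact φ.symm.injective (Subtype.ext h)
  refine ⟨fun e => (p e).1, fun e => (p e).2, fun e => (hadj e).ne, fun F hF => ?_⟩
  have h1 : ∀ e, prob (fun _ _ => 1 / 2) {x : Fin n → Fin 2 | x (p e).1 ≠ x (p e).2} = 1 / 2 :=
    fun e => prob_xor (hadj e).ne
  have hle : H56.GL.pairGraph (fun e => (p e).1) (fun e => (p e).2) F ≤ G := by
    rintro u w ⟨-, e, -, h2⟩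
    rcases h2 with ⟨h3, h4⟩ | ⟨h3, h4⟩
    · rw [← h3, ← h4]; exact hadj e
    · rw [← h3, ← h4]; exact (hadj e).symm
  have h2 := H56.GL.xor_indep (k := k) (s := fun e => (p e).1) (t := fun e => (p e).2)
    (fun e => (hadj e).ne) F hinj.injOn
    (lt_of_lt_of_le hG (SimpleGraph.egirth_anti hle)) hF
  have h3 : prob (fun _ _ => 1 / 2) (⋂ e ∈ F, {x : Fin n → Fin 2 | x (p e).1 ≠ x (p e).2}) =
      (1 / 2) ^ F.card := h2
  rw [h3]
  simp only [h1, Finset.prod_const, sub_self, abs_zero, le_refl]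

theorem result :
    (∀ q k : ℕ, 2 ≤ k → ∃ C : ℕ, ∀ v : ℝ, 0 < v → ∃ ε : ℝ, 0 < ε ∧
      ∀ (n N : ℕ) (μ : Fin n → Fin q → ℝ), IsSource μ → ∀ (s t : Fin N → Fin n)
        (B : Fin N → Set (Fin n → Fin q)), (∀ e, Determined (B e) (s e) (t e)) →
        ((Indep k 0 μ B ∧ ∀ e, 0 < prob μ (B e) ∧ prob μ (B e) < 1) ∨
          (Indep k ε μ B ∧ ∀ e, v ≤ prob μ (B e) ∧ prob μ (B e) ≤ 1 - v)) →
        ∃ T : Finset (Fin N), N ≤ C * T.card ∧
          Set.InjOn (fun e => s(s e, t e)) (T : Set (Fin N)) ∧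
          ((k : ℕ) : ℕ∞) <
            (SimpleGraph.fromEdgeSet ((fun e => s(s e, t e)) '' (T : Set (Fin N)))).egirth) ∧
    ∀ m : ℕ, 1 ≤ m → List.TFAE [
      -- the girth conjecture for the parameter `m`
      ∃ c : ℝ, 0 < c ∧ ∃ n₀ : ℕ, ∀ n : ℕ, n₀ ≤ n → ∃ G : SimpleGraph (Fin n),
        ((2 * m : ℕ) : ℕ∞) < G.egirth ∧ c * (n : ℝ) ^ (1 + 1 / (m : ℝ)) ≤ G.edgeSet.ncard,
      -- comparisons of two of `n` fair bits
      ∃ c : ℝ, 0 < c ∧ ∃ n₀ : ℕ, ∀ n : ℕ, n₀ ≤ n → ∃ N : ℕ,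
        c * (n : ℝ) ^ (1 + 1 / (m : ℝ)) ≤ N ∧
        ∃ s t : Fin N → Fin n, (∀ e, s e ≠ t e) ∧
          Indep (2 * m) 0 (fun _ _ => 1 / 2) (fun e => {x : Fin n → Fin 2 | x (s e) ≠ x (t e)}),
      -- exactly independent events over some alphabet
      ∃ q : ℕ, ∃ c : ℝ, 0 < c ∧ ∃ n₀ : ℕ, ∀ n : ℕ, n₀ ≤ n → ∃ N : ℕ,
        c * (n : ℝ) ^ (1 + 1 / (m : ℝ)) ≤ N ∧
        ∃ (μ : Fin n → Fin q → ℝ) (B : Fin N → Set (Fin n → Fin q)), IsSource μ ∧
          (∀ e, ∃ u w, Determined (B e) u w) ∧ (∀ e, 0 < prob μ (B e) ∧ prob μ (B e) < 1) ∧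
          Indep (2 * m) 0 μ B,
      -- almost independent events over some alphabet
      ∃ (q : ℕ) (v c : ℝ), 0 < v ∧ 0 < c ∧ ∀ ε : ℝ, 0 < ε → ∃ n₀ : ℕ, ∀ n : ℕ, n₀ ≤ n →
        ∃ N : ℕ, c * (n : ℝ) ^ (1 + 1 / (m : ℝ)) ≤ N ∧
        ∃ (μ : Fin n → Fin q → ℝ) (B : Fin N → Set (Fin n → Fin q)), IsSource μ ∧
          (∀ e, ∃ u w, Determined (B e) u w) ∧
          (∀ e, v ≤ prob μ (B e) ∧ prob μ (B e) ≤ 1 - v) ∧ Indep (2 * m) ε μ B] := by
  refine ⟨structure_thm, fun m hm => ?_⟩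
  -- from events to graphs
  have key : ∀ (c : ℝ) (C n N : ℕ), 0 < c → c * (n : ℝ) ^ (1 + 1 / (m : ℝ)) ≤ N →
      ∀ (s t : Fin N → Fin n) (T : Finset (Fin N)), (∀ e, s e ≠ t e) → N ≤ C * T.card →
        Set.InjOn (fun e => s(s e, t e)) (T : Set (Fin N)) →
        ((2 * m : ℕ) : ℕ∞) <
          (SimpleGraph.fromEdgeSet ((fun e => s(s e, t e)) '' (T : Set (Fin N)))).egirth →
        ∃ G : SimpleGraph (Fin n), ((2 * m : ℕ) : ℕ∞) < G.egirth ∧
          c / (C + 1) * (n : ℝ) ^ (1 + 1 / (m : ℝ)) ≤ G.edgeSet.ncard := by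
    intro c C n N hc hN s t T hst hT hinj hg
    refine ⟨_, hg, ?_⟩
    rw [ncard_edges s t hst T hinj]
    have h1 : (N : ℝ) ≤ (C + 1) * T.card := by
      have : (N : ℝ) ≤ C * T.card := by exact_mod_cast hT
      have h0 : (0 : ℝ) ≤ T.card := Nat.cast_nonneg _
      nlinarith
    rw [div_mul_eq_mul_div, div_le_iff₀ (by positivity)]
    calc c * (n : ℝ) ^ (1 + 1 / (m : ℝ)) ≤ N := hN
      _ ≤ (C + 1) * T.card := h1
      _ = T.card * (C + 1) := by ring
  have hfair : ∀ n : ℕ, IsSource (fun (_ : Fin n) (_ : Fin 2) => (1 : ℝ) / 2) :=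
    fun n => H56.GL.fair_isSource
  have hdet : ∀ {n : ℕ} {u w : Fin n}, u ≠ w → Determined {x : Fin n → Fin 2 | x u ≠ x w} u w := by
    intro n u w h
    refine ⟨h, fun x y h1 h2 => ?_⟩
    simp only [Set.mem_ofPred_eq, h1, h2]
  tfae_have 1 → 2 := by
    rintro ⟨c, hc, n₀, h⟩
    refine ⟨c, hc, n₀, fun n hn => ?_⟩
    obtain ⟨G, hG, hcard⟩ := h n hn
    exact ⟨_, hcard, graph_to_xor G hG⟩
  tfae_have 2 → 3 := by
    rintro ⟨c, hc, n₀, h⟩
    refine ⟨2, c, hc, n₀, fun n hn => ?_⟩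
    obtain ⟨N, hN, s, t, hst, hind⟩ := h n hn
    refine ⟨N, hN, _, _, hfair n, fun e => ⟨s e, t e, hdet (hst e)⟩, fun e => ?_, hind⟩
    rw [prob_xor (hst e)]
    norm_num
  tfae_have 2 → 4 := by
    rintro ⟨c, hc, n₀, h⟩
    refine ⟨2, 1 / 2, c, by norm_num, hc, fun ε hε => ⟨n₀, fun n hn => ?_⟩⟩
    obtain ⟨N, hN, s, t, hst, hind⟩ := h n hn
    refine ⟨N, hN, _, _, hfair n, fun e => ⟨s e, t e, hdet (hst e)⟩, fun e => ?_,
      mono_indep hind hε.le⟩
    rw [prob_xor (hst e)]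
    norm_num
  tfae_have 3 → 1 := by
    rintro ⟨q, c, hc, n₀, h⟩
    obtain ⟨C, hC⟩ := structure_thm q (2 * m) (by omega)
    obtain ⟨ε, -, hε⟩ := hC 1 one_pos
    refine ⟨c / (C + 1), by positivity, n₀, fun n hn => ?_⟩
    obtain ⟨N, hN, μ, B, hμ, hB, hpos, hind⟩ := h n hn
    choose s t hst using hB
    obtain ⟨T, hT, hinj, hg⟩ := hε n N μ hμ s t B hst (Or.inl ⟨hind, hpos⟩)
    exact key c C n N hc hN s t T (fun e => (hst e).1) hT hinj hg
  tfae_have 4 → 1 := by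
    rintro ⟨q, v, c, hv, hc, h⟩
    obtain ⟨C, hC⟩ := structure_thm q (2 * m) (by omega)
    obtain ⟨ε, hε0, hε⟩ := hC v hv
    obtain ⟨n₀, h⟩ := h ε hε0
    refine ⟨c / (C + 1), by positivity, n₀, fun n hn => ?_⟩
    obtain ⟨N, hN, μ, B, hμ, hB, hpos, hind⟩ := h n hn
    choose s t hst using hB
    obtain ⟨T, hT, hinj, hg⟩ := hε n N μ hμ s t B hst (Or.inr ⟨hind, hpos⟩)
    exact key c C n N hc hN s t T (fun e => (hst e).1) hT hinj hg
  tfae_finish

end Pool.Agent.Results.MP_97687e_co.LocalityTwoGenerators
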