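import Mathlib
import Pool.Agent.H56.QU.Pat

set_option autoImplicit false

/-!
# Queries which read two bits, and the girth conjecture

`n` bits are stored; a query reads at most two of them and answers yes or no. If all patterns of
answers to the queries of a finite set `F` occur, then the pairs of bits read by these queries are
different and form a forest (a query which depends on one bit reads this bit and an additional bit
`0`). For sums of two bits the converse holds. So sums along a graph are the best queries, and the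
maximal number of queries, any `k` of which have all patterns of answers, is `γ(n + 1, k)`, the
maximal number of edges of a graph with `n + 1` vertices and girth `> k`.

Proof. A query is, up to negation, a sum of two of the bits `0, x 0, …` or a conjunction of two
literals. One of its two answers fixes the sum of the bits read. If a cycle contains a sum, its
answer can be chosen so that the sum over the cycle is not zero. In a cycle of conjunctions the
first and the third are satisfied only if the literals of the second are true.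
-/

namespace Pool.Agent.Results.MP_97687e_co.TwoBitQueries

open Finset Filter

/-- The bits `0, x 0, …, x (n-1)`. -/
def withZero {n : ℕ} (x : Fin n → Bool) : Fin (n + 1) → Bool := Fin.cons false x

/-- The answer of the query `g` is determined by at most two of the stored bits. -/
def ReadsTwo {n : ℕ} (g : (Fin n → Bool) → Bool) : Prop :=
  ∃ u w : Fin n, ∀ x y, x u = y u → x w = y w → g x = g y

/-- Every pattern of answers to the queries in `F` occurs. -/
def Shattered {n : ℕ} {ι : Type} (f : ι → (Fin n → Bool) → Bool) (F : Finset ι) : Prop :=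
  ∀ y : ι → Bool, ∃ x, ∀ e ∈ F, f e x = y e

/-- The sum of the bits `s e` and `t e` modulo two. -/
def sums {n : ℕ} {ι : Type} (s t : ι → Fin (n + 1)) : ι → (Fin n → Bool) → Bool :=
  fun e x => xor (withZero x (s e)) (withZero x (t e))

/-- The pairs `{s e, t e}`, `e ∈ F`, are different and form a forest. -/
def Forest {n : ℕ} {ι : Type} (s t : ι → Fin (n + 1)) (F : Finset ι) : Prop :=
  Set.InjOn (fun e => s(s e, t e)) (F : Set ι) ∧
    (SimpleGraph.fromEdgeSet ((fun e => s(s e, t e)) '' (F : Set ι))).IsAcyclic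

/-- `n` independent bits, both values have positive probability -/
def Bits {n : ℕ} (μ : Fin n → Fin 2 → ℝ) : Prop :=
  ∀ v, (∀ a, 0 < μ v a) ∧ μ v 0 + μ v 1 = 1

/-- The probability of `B` for independent bits with the distributions `μ v`. -/
noncomputable def prob {n : ℕ} (μ : Fin n → Fin 2 → ℝ) (B : Set (Fin n → Fin 2)) : ℝ :=
  ∑ x, B.indicator (fun x => ∏ v, μ v (x v)) x

/-- The value of `f` is determined by the bits `u` and `w` (which may be equal). -/
def Determined {n : ℕ} {α : Type} (f : (Fin n → Fin 2) → α) (u w : Fin n) : Prop :=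
  ∀ x y, x u = y u → x w = y w → f x = f y

/-- The events `B e` are `k`-wise independent. -/
def Indep {n N : ℕ} (k : ℕ) (μ : Fin n → Fin 2 → ℝ) (B : Fin N → Set (Fin n → Fin 2)) : Prop :=
  ∀ F : Finset (Fin N), F.card ≤ k → prob μ (⋂ e ∈ F, B e) = ∏ e ∈ F, prob μ (B e)

/-- `B` is a family of `k`-wise independent events of positive probability `< 1`, each of them
determined by at most two of `n` independent bits. -/
def Fam {n N : ℕ} (k : ℕ) (μ : Fin n → Fin 2 → ℝ) (B : Fin N → Set (Fin n → Fin 2)) : Prop :=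
  Bits μ ∧ (∀ e, ∃ u w, Determined (fun x => x ∈ B e) u w) ∧
    (∀ e, 0 < prob μ (B e) ∧ prob μ (B e) < 1) ∧ Indep k μ B

/-- `γ(n, k)`: the maximal number of edges of a graph with `n` vertices and girth `> k`. -/
noncomputable def gam (n k : ℕ) : ℕ :=
  sSup {m | ∃ G : SimpleGraph (Fin n), ((k : ℕ) : ℕ∞) < G.egirth ∧ G.edgeSet.ncard = m}

lemma gam_greatest (n k : ℕ) : IsGreatest
    {m | ∃ G : SimpleGraph (Fin n), ((k : ℕ) : ℕ∞) < G.egirth ∧ G.edgeSet.ncard = m} (gam n k) := by
  classical
  have hne : {m | ∃ G : SimpleGraph (Fin n), ((k : ℕ) : ℕ∞) < G.egirth ∧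
      G.edgeSet.ncard = m}.Nonempty := ⟨_, ⊥, by simp, rfl⟩
  have hbd : BddAbove {m | ∃ G : SimpleGraph (Fin n), ((k : ℕ) : ℕ∞) < G.egirth ∧
      G.edgeSet.ncard = m} := by
    refine ⟨(Set.univ : Set (Sym2 (Fin n))).ncard, ?_⟩
    rintro m ⟨G, -, rfl⟩
    exact Set.ncard_le_ncard (Set.subset_univ _) (Set.toFinite _)
  exact ⟨Nat.sSup_mem hne hbd, fun m hm => le_csSup hbd hm⟩

lemma prob_eq {n : ℕ} (μ : Fin n → Fin 2 → ℝ) (B : Set (Fin n → Fin 2)) :
    prob μ B = H56.GL.prob μ B := rfl


lemma graph_eq {n : ℕ} {ι : Type} (s t : ι → Fin (n + 1)) (F : Finset ι) :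
    SimpleGraph.fromEdgeSet ((fun e => s(s e, t e)) '' (F : Set ι)) =
      H56.GL.pairGraph s t F := by
  ext u w
  rw [SimpleGraph.fromEdgeSet_adj]
  simp only [H56.GL.pairGraph, Set.mem_image, Finset.mem_coe, Sym2.eq_iff]
  exact and_comm

lemma sh_iff {n : ℕ} {ι : Type} (f : ι → (Fin n → Bool) → Bool) (F : Finset ι) :
    Shattered f F ↔ H56.QU.Sh f F := Iff.rfl

/-- shattered queries are on a forest -/
lemma forest_of {n : ℕ} {ι : Type} {f : ι → (Fin n → Bool) → Bool} {s t : ι → Fin (n + 1)}
    (hst : ∀ e, s e ≠ t e) (hE : ∀ e, H56.QU.EdgeOf (f e) (s e) (t e)) {F : Finset ι}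
    (hF : Shattered f F) : Forest s t F := by
  classical
  have h1 := fun k => H56.QU.noCyc hF s t (fun e _ => hE e) k
  refine ⟨fun e he e' he' hee => ?_, ?_⟩
  · exact (h1 2).inj le_rfl hst (by exact_mod_cast he) (by exact_mod_cast he')
      (Sym2.eq_iff.1 hee)
  · rw [graph_eq, ← SimpleGraph.egirth_eq_top, ENat.eq_top_iff_forall_gt]
    intro k
    exact (h1 k).girth

/-- sums along a forest are shattered -/
lemma shattered_of {n : ℕ} {ι : Type} {s t : ι → Fin (n + 1)} (hst : ∀ e, s e ≠ t e)
    {F : Finset ι} (hF : Forest s t F) : Shattered (sums s t) F := by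
  classical
  refine H56.QU.forest_sh hst F hF.1 ?_
  rw [← graph_eq]
  exact hF.2

/-- the upper bound -/
lemma upper {n N k : ℕ} (hk : 2 ≤ k) {f : Fin N → (Fin n → Bool) → Bool}
    (hr : ∀ e, ReadsTwo (f e)) (hF : ∀ F : Finset (Fin N), F.card ≤ k → Shattered f F) :
    N ≤ gam (n + 1) k := by
  classical
  have hnc : ∀ e, ∃ x y, f e x ≠ f e y := fun e =>
    H56.QU.Sh.nonconst (F := {e}) (hF {e} (by simp; omega)) (by simp)
  choose s t hst hE using fun e => H56.QU.exists_edgeOf (hr e) (hnc e)
  have hcyc : H56.GL.NoCyc k s t univ := by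
    intro l hl2 hlk c e hcl hcinj heinj hE'
    have h1 := H56.QU.noCyc (F := (range l).image e)
      (hF _ (Finset.card_image_le.trans (by simpa using hlk))) s t (fun e _ => hE e) k
    exact h1 l hl2 hlk c e hcl hcinj heinj (fun i hi =>
      ⟨Finset.mem_image_of_mem e (by simpa using hi), (hE' i hi).2⟩)
  have hinj : Function.Injective (fun e => s(s e, t e)) := fun e e' hee =>
    hcyc.inj hk hst (mem_univ e) (mem_univ e') (Sym2.eq_iff.1 hee)
  have hg := hcyc.girth
  rw [← graph_eq] at hg
  refine (gam_greatest (n + 1) k).2 ⟨_, hg, ?_⟩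
  rw [Finset.coe_univ, Set.image_univ, SimpleGraph.edgeSet_fromEdgeSet, sdiff_eq_left.2,
    Set.ncard_range_of_injective hinj]
  · simp
  · rw [Set.disjoint_left]
    rintro a ⟨e, rfl⟩ h
    exact hst e (by simpa using h)

/-- the upper bound for queries with arbitrary values -/
lemma upper_values {n N k : ℕ} (hk : 2 ≤ k) {α : Type} {Y : Fin N → (Fin n → Bool) → α}
    (hr : ∀ e, ∃ u w : Fin n, ∀ x y, x u = y u → x w = y w → Y e x = Y e y)
    (hnc : ∀ e, ∃ x y, Y e x ≠ Y e y)
    (hF : ∀ F : Finset (Fin N), F.card ≤ k → ∀ z : Fin N → (Fin n → Bool),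
      ∃ x, ∀ e ∈ F, Y e x = Y e (z e)) : N ≤ gam (n + 1) k := by
  classical
  choose x0 y0 hxy using hnc
  refine upper hk (f := fun e x => decide (Y e x = Y e (x0 e))) (fun e => ?_) (fun F hFk y => ?_)
  · obtain ⟨u, w, h⟩ := hr e
    refine ⟨u, w, fun x y hx hy => ?_⟩
    simp only [h x y hx hy]
  · obtain ⟨x, hx⟩ := hF F hFk (fun e => if y e = true then x0 e else y0 e)
    refine ⟨x, fun e he => ?_⟩
    simp only [hx e he]
    by_cases hy : y e = true
    · simp [hy]
    · have h1 : y e = false := by simpa using hy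
      rw [if_neg hy, h1]
      simpa using fun h => hxy e h.symm

/-- the query whether the event `B` occurs -/
noncomputable def query {n : ℕ} (B : Set (Fin n → Fin 2)) : (Fin n → Bool) → Bool :=
  open Classical in fun x => decide ((fun v => if x v = true then 1 else 0) ∈ B)

lemma fam_shattered {n N k : ℕ} {μ : Fin n → Fin 2 → ℝ} {B : Fin N → Set (Fin n → Fin 2)}
    (h : Fam k μ B) {F : Finset (Fin N)} (hF : F.card ≤ k) :
    Shattered (fun e => query (B e)) F := by
  classical
  intro y
  obtain ⟨x, hx⟩ := H56.QU.pattern_exists μ B k h.2.2.2 F hF (fun e _ => h.2.2.1 e) y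
  refine ⟨fun v => decide (x v = 1), fun e he => ?_⟩
  have h1 : (fun v => if decide (x v = 1) = true then (1 : Fin 2) else 0) = x := by
    funext v
    have : ∀ a : Fin 2, (if decide (a = 1) = true then (1 : Fin 2) else 0) = a := by decide
    exact this _
  have h2 := hx e he
  simp only [query]
  rw [h1]
  by_cases h3 : x ∈ B e
  · simp [h3, h2.1 h3]
  · have h4 : y e = false := by
      by_contra h4
      exact h3 (h2.2 (by simpa using h4))
    simp [h3, h4]

lemma fam_upper {n N k : ℕ} (hk : 2 ≤ k) {μ : Fin n → Fin 2 → ℝ}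
    {B : Fin N → Set (Fin n → Fin 2)} (h : Fam k μ B) : N ≤ gam (n + 1) k := by
  classical
  refine upper hk (f := fun e => query (B e)) (fun e => ?_) (fun F hF => fam_shattered h hF)
  obtain ⟨u, w, huw⟩ := h.2.1 e
  refine ⟨u, w, fun x y hx hy => ?_⟩
  have := huw (fun v => if x v = true then 1 else 0) (fun v => if y v = true then 1 else 0)
    (by simp only [hx]) (by simp only [hy])
  unfold query
  simp only at this
  simp only [this]

/-- queries from a graph -/
lemma lower_sums {n k : ℕ} : ∃ s t : Fin (gam (n + 1) k) → Fin (n + 1), (∀ e, s e ≠ t e) ∧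
    ∀ F : Finset (Fin (gam (n + 1) k)), F.card ≤ k → Forest s t F := by
  classical
  obtain ⟨G, hG, hN⟩ := (gam_greatest (n + 1) k).1
  rw [← hN]
  let φ : G.edgeSet ≃ Fin G.edgeSet.ncard := Finite.equivFinOfCardEq (by rfl)
  have hex : ∀ e : Fin G.edgeSet.ncard, ∃ p : Fin (n + 1) × Fin (n + 1),
      s(p.1, p.2) = (φ.symm e : Sym2 (Fin (n + 1))) := by
    intro e
    induction' h' : (φ.symm e : Sym2 (Fin (n + 1))) with u w
    exact ⟨(u, w), rfl⟩
  choose p hp using hex
  have hadj : ∀ e, G.Adj (p e).1 (p e).2 := fun e => by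
    rw [← SimpleGraph.mem_edgeSet, hp]
    exact (φ.symm _).2
  have hinj : Function.Injective (fun e => s((p e).1, (p e).2)) := by
    intro e e' h'
    simp only [hp] at h'
    exact φ.symm.injective (Subtype.ext h')
  refine ⟨fun e => (p e).1, fun e => (p e).2, fun e => (hadj e).ne, fun F hF =>
    ⟨hinj.injOn, ?_⟩⟩
  set H := SimpleGraph.fromEdgeSet ((fun e => s((p e).1, (p e).2)) '' (F : Set _)) with hH
  have hle : H ≤ G := by
    intro u w huw
    rw [hH, SimpleGraph.fromEdgeSet_adj] at huw
    obtain ⟨⟨e, -, he⟩, -⟩ := huw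
    simp only [hp] at he
    rw [← SimpleGraph.mem_edgeSet, ← he]
    exact (φ.symm _).2
  intro a w hw
  have h1 : ((k : ℕ) : ℕ∞) < w.length := lt_of_lt_of_le hG
    ((SimpleGraph.egirth_anti hle).trans (SimpleGraph.egirth_le_length hw))
  have h2 : w.length ≤ H.edgeSet.ncard := by
    have h3 := hw.edges_nodup
    rw [← SimpleGraph.Walk.length_edges, ← List.toFinset_card_of_nodup h3,
      ← Set.ncard_coe_finset]
    refine Set.ncard_le_ncard ?_ (Set.toFinite _)
    intro z hz
    simp only [List.coe_toFinset, Set.mem_ofPred_eq] at hz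
    exact w.edges_subset_edgeSet hz
  have h4 : H.edgeSet.ncard ≤ k := by
    have h5 : H.edgeSet ⊆ (fun e => s((p e).1, (p e).2)) '' (F : Set _) := by
      rw [hH, SimpleGraph.edgeSet_fromEdgeSet]
      exact Set.sdiff_subset
    refine (Set.ncard_le_ncard h5 (Set.toFinite _)).trans ?_
    refine (Set.ncard_image_le (Set.toFinite _)).trans ?_
    rw [Set.ncard_coe_finset]
    exact hF
  have h6 : w.length ≤ k := h2.trans h4
  exact absurd h1 (not_lt.2 (by exact_mod_cast h6))

lemma sums_reads {n : ℕ} {ι : Type} {s t : ι → Fin (n + 1)} (hst : ∀ e, s e ≠ t e) (e : ι) :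
    ReadsTwo (sums s t e) := by
  have key : ∀ (a b : Fin (n + 1)) (u w : Fin n), (a = 0 ∨ a = u.succ) → (b = 0 ∨ b = w.succ) →
      ∀ x y : Fin n → Bool, x u = y u → x w = y w →
        xor (withZero x a) (withZero x b) = xor (withZero y a) (withZero y b) := by
    intro a b u w ha hb x y hx hy
    have h1 : withZero x a = withZero y a := by
      rcases ha with rfl | rfl
      · rfl
      · exact hx
    have h2 : withZero x b = withZero y b := by
      rcases hb with rfl | rfl
      · rfl
      · exact hy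
    rw [h1, h2]
  rcases Fin.eq_zero_or_eq_succ (s e) with hs | ⟨u, hs⟩ <;>
    rcases Fin.eq_zero_or_eq_succ (t e) with ht | ⟨w, ht⟩
  · exact absurd (hs.trans ht.symm) (hst e)
  · exact ⟨w, w, key _ _ w w (Or.inl hs) (Or.inr ht)⟩
  · exact ⟨u, u, key _ _ u u (Or.inr hs) (Or.inl ht)⟩
  · exact ⟨u, w, key _ _ u w (Or.inr hs) (Or.inr ht)⟩

/-- the event that two of the bits `0, x 0, …, x (n-1)` differ -/
def Dif {n : ℕ} (s t : Fin (n + 1)) : Set (Fin n → Fin 2) :=
  {x | (Fin.cons 0 x : Fin (n + 1) → Fin 2) s ≠ (Fin.cons 0 x : Fin (n + 1) → Fin 2) t}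

lemma dif_determined {n : ℕ} {s t : Fin (n + 1)} (h : s ≠ t) :
    ∃ u w, Determined (fun x => x ∈ Dif s t) u w := by
  have key : ∀ (s t : Fin (n + 1)) (u w : Fin n), (s = 0 ∨ s = u.succ) → (t = 0 ∨ t = w.succ) →
      Determined (fun x => x ∈ Dif s t) u w := by
    intro s t u w hs ht x y hx hy
    have h1 : (Fin.cons 0 x : Fin (n + 1) → Fin 2) s = (Fin.cons 0 y : Fin (n + 1) → Fin 2) s := by
      rcases hs with rfl | rfl
      · simp
      · simpa using hx
    have h2 : (Fin.cons 0 x : Fin (n + 1) → Fin 2) t = (Fin.cons 0 y : Fin (n + 1) → Fin 2) t := by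
      rcases ht with rfl | rfl
      · simp
      · simpa using hy
    simp only [Dif, Set.mem_ofPred_eq, h1, h2]
  rcases Fin.eq_zero_or_eq_succ s with hs | ⟨u, hs⟩ <;>
    rcases Fin.eq_zero_or_eq_succ t with ht | ⟨w, ht⟩
  · exact absurd (hs.trans ht.symm) h
  · exact ⟨w, w, key s t w w (Or.inl hs) (Or.inr ht)⟩
  · exact ⟨u, u, key s t u u (Or.inr hs) (Or.inl ht)⟩
  · exact ⟨u, w, key s t u w (Or.inr hs) (Or.inr ht)⟩

lemma lower {n N k : ℕ} (hk : 1 ≤ k) (h : N ≤ gam (n + 1) k) :
    ∃ s t : Fin N → Fin (n + 1), Fam k (fun _ _ => 1 / 2) (fun e => Dif (s e) (t e)) := by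
  classical
  obtain ⟨G, hG, hN⟩ := (gam_greatest (n + 1) k).1
  rw [← hN] at h
  have hfin : G.edgeSet.Finite := Set.toFinite _
  let φ : G.edgeSet ≃ Fin G.edgeSet.ncard := Finite.equivFinOfCardEq (by rfl)
  have hex : ∀ e : Fin N, ∃ p : Fin (n + 1) × Fin (n + 1),
      s(p.1, p.2) = (φ.symm (Fin.castLE h e) : Sym2 (Fin (n + 1))) := by
    intro e
    induction' h' : (φ.symm (Fin.castLE h e) : Sym2 (Fin (n + 1))) with u w
    exact ⟨(u, w), rfl⟩
  choose p hp using hex
  have hadj : ∀ e, G.Adj (p e).1 (p e).2 := fun e => by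
    rw [← SimpleGraph.mem_edgeSet, hp]
    exact (φ.symm _).2
  have hinj : Function.Injective (fun e => s((p e).1, (p e).2)) := by
    intro e e' h'
    simp only [hp] at h'
    exact Fin.castLE_injective h (φ.symm.injective (Subtype.ext h'))
  have hprob : ∀ F : Finset (Fin N), F.card ≤ k →
      prob (fun _ _ => 1 / 2) (⋂ e ∈ F, Dif (p e).1 (p e).2) = (1 / 2) ^ F.card := by
    intro F hF
    have hle : H56.GL.pairGraph (fun e => (p e).1) (fun e => (p e).2) F ≤ G := by
      rintro u w ⟨-, e, -, h2⟩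
      rcases h2 with ⟨h3, h4⟩ | ⟨h3, h4⟩
      · rw [← h3, ← h4]; exact hadj e
      · rw [← h3, ← h4]; exact (hadj e).symm
    exact H56.GE.dif_indep (k := k) (s := fun e => (p e).1) (t := fun e => (p e).2)
      (fun e => (hadj e).ne) F hinj.injOn (lt_of_lt_of_le hG (SimpleGraph.egirth_anti hle)) hF
  have h1 : ∀ e, prob (fun _ _ => 1 / 2) (Dif (p e).1 (p e).2) = 1 / 2 := by
    intro e
    have := hprob {e} (by simpa using hk)
    simpa using this
  refine ⟨fun e => (p e).1, fun e => (p e).2, ?_, fun e => dif_determined (hadj e).ne,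
    fun e => by rw [h1]; norm_num, fun F hF => ?_⟩
  · intro v
    norm_num
  · rw [hprob F hF]
    simp only [h1, Finset.prod_const]

lemma gam_two (n : ℕ) : gam n 2 = n.choose 2 := by
  classical
  apply le_antisymm
  · obtain ⟨G, -, hG⟩ := (gam_greatest n 2).1
    rw [← hG, ← SimpleGraph.coe_edgeFinset, Set.ncard_coe_finset]
    simpa using SimpleGraph.card_edgeFinset_le_card_choose_two (G := G)
  · refine (gam_greatest n 2).2 ⟨⊤, lt_of_lt_of_le (by norm_num) SimpleGraph.three_le_egirth, ?_⟩
    rw [← SimpleGraph.coe_edgeFinset, Set.ncard_coe_finset,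
      SimpleGraph.card_edgeFinset_top_eq_card_choose_two, Fintype.card_fin]

lemma girth_three {V : Type} {G : SimpleGraph V} : ((3 : ℕ) : ℕ∞) < G.egirth ↔ G.CliqueFree 3 := by
  classical
  constructor
  · intro h s hs
    obtain ⟨u, w, hw, hl⟩ := SimpleGraph.is3Clique_iff_exists_cycle_length_three.1 ⟨s, hs⟩
    have := SimpleGraph.egirth_le_length hw
    rw [hl] at this
    exact absurd h (not_lt.2 this)
  · intro h
    have h1 : ((4 : ℕ) : ℕ∞) ≤ G.egirth := by
      rw [SimpleGraph.le_egirth]
      intro a w hw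
      have h3 := hw.three_le_length
      rcases Nat.lt_or_ge w.length 4 with h4 | h4
      · exfalso
        obtain ⟨s, hs⟩ := SimpleGraph.is3Clique_iff_exists_cycle_length_three.2
          ⟨a, w, hw, by omega⟩
        exact h s hs
      · exact_mod_cast h4
    exact lt_of_lt_of_le (by norm_num) h1

lemma mantel_num (n : ℕ) :
    (n ^ 2 - (n % 2) ^ 2) * (2 - 1) / (2 * 2) + (n % 2).choose 2 = n ^ 2 / 4 := by
  rcases Nat.even_or_odd' n with ⟨m, rfl | rfl⟩
  · have h1 : 2 * m % 2 = 0 := by omega
    rw [h1]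
    simp
  · have h1 : (2 * m + 1) % 2 = 1 := by omega
    rw [h1]
    have h2 : (2 * m + 1) ^ 2 = 4 * (m ^ 2 + m) + 1 := by ring
    rw [h2]
    simp only [Nat.choose_eq_zero_of_lt (show 1 < 2 by norm_num)]
    omega

lemma gam_three (n : ℕ) : gam n 3 = n ^ 2 / 4 := by
  classical
  apply le_antisymm
  · obtain ⟨G, h1, hG⟩ := (gam_greatest n 3).1
    rw [← hG, ← SimpleGraph.coe_edgeFinset, Set.ncard_coe_finset]
    have := SimpleGraph.CliqueFree.card_edgeFinset_le (r := 2) (girth_three.1 h1)
    simp only [Fintype.card_fin] at this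
    rwa [mantel_num] at this
  · refine (gam_greatest n 3).2 ⟨SimpleGraph.turanGraph n 2,
      girth_three.2 (SimpleGraph.turanGraph_cliqueFree (by norm_num)), ?_⟩
    rw [← SimpleGraph.coe_edgeFinset, Set.ncard_coe_finset, ← mantel_num n]
    convert! SimpleGraph.card_edgeFinset_turanGraph (n := n) (r := 2)

/-- the number of events and the number of edges have the same asymptotics -/
lemma same_constant (m : ℕ) (hm : 1 ≤ m) (C : ℝ) :
    (∀ c < C, ∀ᶠ n : ℕ in atTop, c * (n : ℝ) ^ (1 + 1 / (m : ℝ)) ≤ gam n (2 * m)) ↔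
    (∀ c < C, ∀ᶠ n : ℕ in atTop, c * (n : ℝ) ^ (1 + 1 / (m : ℝ)) ≤ gam (n + 1) (2 * m)) := by
  have hp : 0 < 1 + 1 / (m : ℝ) := by positivity
  constructor
  · intro h c hc
    have h1 := (tendsto_add_atTop_nat 1).eventually (h c hc)
    filter_upwards [h1] with n hn
    rcases le_or_gt c 0 with h0 | h0
    · have : c * (n : ℝ) ^ (1 + 1 / (m : ℝ)) ≤ 0 :=
        mul_nonpos_of_nonpos_of_nonneg h0 (by positivity)
      exact this.trans (Nat.cast_nonneg _)
    · refine le_trans ?_ hn
      apply mul_le_mul_of_nonneg_left _ h0.le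
      apply Real.rpow_le_rpow (by positivity) _ hp.le
      push_cast
      linarith
  · intro h c hc
    rcases le_or_gt c 0 with h0 | h0
    · filter_upwards with n
      have : c * (n : ℝ) ^ (1 + 1 / (m : ℝ)) ≤ 0 :=
        mul_nonpos_of_nonpos_of_nonneg h0 (by positivity)
      exact this.trans (Nat.cast_nonneg _)
    · obtain ⟨c', hc1, hc2⟩ := exists_between hc
      have hc0 : 0 < c' := h0.trans hc1
      -- ((n+1)/n)^p tends to 1
      have hlim : Tendsto (fun n : ℕ => (((n : ℝ) + 1) / n) ^ (1 + 1 / (m : ℝ))) atTop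
          (nhds (1 ^ (1 + 1 / (m : ℝ)))) := by
        apply Tendsto.rpow_const
        · have h2 : Tendsto (fun n : ℕ => 1 + 1 / (n : ℝ)) atTop (nhds (1 + 0)) :=
            tendsto_const_nhds.add tendsto_one_div_atTop_nhds_zero_nat
          rw [add_zero] at h2
          refine h2.congr' ?_
          filter_upwards [eventually_gt_atTop 0] with n hn
          have : (n : ℝ) ≠ 0 := by positivity
          field_simp
        · left; norm_num
      rw [Real.one_rpow] at hlim
      have h3 : ∀ᶠ n : ℕ in atTop, (((n : ℝ) + 1) / n) ^ (1 + 1 / (m : ℝ)) < c' / c :=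
        hlim.eventually_lt_const (by rw [lt_div_iff₀ h0]; linarith)
      have h4 : ∀ᶠ n : ℕ in atTop,
          c * ((n + 1 : ℕ) : ℝ) ^ (1 + 1 / (m : ℝ)) ≤ gam (n + 1) (2 * m) := by
        filter_upwards [h3, h c' hc2, eventually_gt_atTop 0] with n hn1 hn2 hn3
        refine le_trans ?_ hn2
        have hn0 : (0 : ℝ) < n := by exact_mod_cast hn3
        rw [Real.div_rpow (by positivity) hn0.le,
          div_lt_div_iff₀ (by positivity) h0] at hn1
        push_cast
        linarith
      rw [eventually_atTop] at h4 ⊢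
      obtain ⟨a, ha⟩ := h4
      refine ⟨a + 1, fun n hn => ?_⟩
      have := ha (n - 1) (by omega)
      rwa [show n - 1 + 1 = n from by omega] at this

theorem result :
    -- `gam n k` is the maximal number of edges of a graph with `n` vertices and girth `> k`
    (∀ n k : ℕ, IsGreatest {m | ∃ G : SimpleGraph (Fin n),
      ((k : ℕ) : ℕ∞) < G.egirth ∧ G.edgeSet.ncard = m} (gam n k)) ∧
    -- the bits read by queries for which all patterns of answers occur form a forest, and all
    -- patterns of answers occur for the sums of these bits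
    (∀ (n : ℕ) (ι : Type) (f : ι → (Fin n → Bool) → Bool), (∀ e, ReadsTwo (f e)) →
      (∀ e, ∃ x y, f e x ≠ f e y) →
      ∃ s t : ι → Fin (n + 1), (∀ e, s e ≠ t e) ∧
        (∀ e x y, withZero x (s e) = withZero y (s e) → withZero x (t e) = withZero y (t e) → f e x = f e y) ∧
        ∀ F : Finset ι, Shattered f F → Forest s t F ∧ Shattered (sums s t) F) ∧
    -- sums of two bits
    (∀ (n : ℕ) (ι : Type) (s t : ι → Fin (n + 1)), (∀ e, s e ≠ t e) → ∀ F : Finset ι,
      (Shattered (sums s t) F ↔ Forest s t F)) ∧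
    -- the maximal number of queries any `k` of which have all patterns of answers
    (∀ n k : ℕ, 2 ≤ k → IsGreatest {N | ∃ f : Fin N → (Fin n → Bool) → Bool,
      (∀ e, ReadsTwo (f e)) ∧ ∀ F : Finset (Fin N), F.card ≤ k → Shattered f F}
        (gam (n + 1) k)) ∧
    -- the same bound for queries with arbitrary values
    (∀ (n N k : ℕ) (α : Type) (Y : Fin N → (Fin n → Bool) → α), 2 ≤ k →
      (∀ e, ∃ u w : Fin n, ∀ x y, x u = y u → x w = y w → Y e x = Y e y) →
      (∀ e, ∃ x y, Y e x ≠ Y e y) →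
      (∀ F : Finset (Fin N), F.card ≤ k → ∀ z : Fin N → (Fin n → Bool),
        ∃ x, ∀ e ∈ F, Y e x = Y e (z e)) →
      N ≤ gam (n + 1) k) ∧
    -- `k`-wise independent events of positive probability `< 1` are such queries, and their maximal
    -- number is the same
    (∀ (n N k : ℕ) (μ : Fin n → Fin 2 → ℝ) (B : Fin N → Set (Fin n → Fin 2)), Fam k μ B →
      ∀ F : Finset (Fin N), F.card ≤ k → Shattered (fun e => query (B e)) F) ∧
    (∀ n k : ℕ, 2 ≤ k → IsGreatest {N | ∃ (μ : Fin n → Fin 2 → ℝ)
      (B : Fin N → Set (Fin n → Fin 2)), Fam k μ B} (gam (n + 1) k)) ∧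
    -- `k = 2` and `k = 3`
    (∀ n : ℕ, gam n 2 = n.choose 2 ∧ gam n 3 = n ^ 2 / 4) ∧
    -- the girth conjecture for `m` with all constants `c < C`
    (∀ m : ℕ, 1 ≤ m → ∀ C : ℝ,
      (∀ c < C, ∀ᶠ n : ℕ in atTop, c * (n : ℝ) ^ (1 + 1 / (m : ℝ)) ≤ gam n (2 * m)) ↔
      (∀ c < C, ∀ᶠ n : ℕ in atTop, ∃ (N : ℕ) (f : Fin N → (Fin n → Bool) → Bool),
        c * (n : ℝ) ^ (1 + 1 / (m : ℝ)) ≤ N ∧ (∀ e, ReadsTwo (f e)) ∧
          ∀ F : Finset (Fin N), F.card ≤ 2 * m → Shattered f F)) := by
  refine ⟨gam_greatest, ?_, ?_, ?_, ?_, ?_, ?_, fun n => ⟨gam_two n, gam_three n⟩, ?_⟩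
  · intro n ι f hr hnc
    choose s t hst hE using fun e => H56.QU.exists_edgeOf (hr e) (hnc e)
    refine ⟨s, t, hst, fun e x y h1 h2 => (hE e).det h1 h2, fun F hF => ?_⟩
    have h1 := forest_of hst hE hF
    exact ⟨h1, shattered_of hst h1⟩
  · intro n ι s t hst F
    constructor
    · intro h
      classical
      exact forest_of hst (fun e => H56.QU.sum2_edge s t e) h
    · exact shattered_of hst
  · intro n k hk
    constructor
    · obtain ⟨s, t, hst, h⟩ := lower_sums (n := n) (k := k)
      exact ⟨sums s t, sums_reads hst, fun F hF => shattered_of hst (h F hF)⟩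
    · rintro N ⟨f, h1, h2⟩
      exact upper hk h1 h2
  · intro n N k α Y hk hr hnc hF
    exact upper_values hk hr hnc hF
  · intro n N k μ B h F hF
    exact fam_shattered h hF
  · intro n k hk
    constructor
    · obtain ⟨s, t, h⟩ := lower (n := n) (k := k) (N := gam (n + 1) k) (by omega) le_rfl
      exact ⟨_, _, h⟩
    · rintro N ⟨μ, B, h⟩
      exact fam_upper hk h
  · intro m hm C
    rw [same_constant m hm C]
    constructor
    · intro h c hc
      filter_upwards [h c hc] with n hn
      obtain ⟨s, t, hst, h'⟩ := lower_sums (n := n) (k := 2 * m)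
      exact ⟨_, sums s t, hn, sums_reads hst, fun F hF => shattered_of hst (h' F hF)⟩
    · intro h c hc
      filter_upwards [h c hc] with n hn
      obtain ⟨N, f, h1, h2, h3⟩ := hn
      refine h1.trans ?_
      exact_mod_cast upper (by omega) h2 h3

end Pool.Agent.Results.MP_97687e_co.TwoBitQueries
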